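import Mathlib
import Pool.Agent.H.MP_4e7634_nt.A

set_option autoImplicit false

namespace Pool.Agent.Results.MP_4e7634_nt.Exists

/-- the number of partitions of `n` into powers of two -/
noncomputable def bin (n : ℕ) : ℕ :=
  Nat.card {p : n.Partition // ∀ i ∈ p.parts, ∃ k : ℕ, i = 2 ^ k}

/-- `w` read at an integer index, equal to `c` at negative indices -/
def ext (c : ℕ) (w : ℕ → ℕ) (m : ℤ) : ℕ := if m < 0 then c else w m.toNat

theorem result : ∃ (us vs : List ℕ) (c k : ℕ) (w : ℕ → ℕ) (a b : ℕ),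
    (∀ u ∈ us, 0 < u) ∧ (∀ v ∈ vs, 0 < v) ∧ (∀ n, 0 < w n) ∧
    (∀ n, k ≤ n → w n = (us.map fun u : ℕ => ext c w (n - ext c w (n - u))).sum +
      (vs.map fun v : ℕ => ext c w (n - v)).sum) ∧
    0 < a ∧ ∀ n, w (a * n + b) = bin n := by
  refine ⟨[1], [10], 0, 150, Pool.Agent.H.MP_4e7634_nt.w, 5, 3, by simp, by simp,
    Pool.Agent.H.MP_4e7634_nt.w_pos, fun n hn => ?_, by norm_num,
    fun n => Pool.Agent.H.MP_4e7634_nt.w3 _ n rfl⟩
  simp only [List.map_cons, List.map_nil, List.sum_cons, List.sum_nil, add_zero]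
  exact Pool.Agent.H.MP_4e7634_nt.w_rec n hn

end Pool.Agent.Results.MP_4e7634_nt.Exists
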